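import Pool.Agent.Helper92.TN.GoalsD

set_option autoImplicit false

open MvPolynomial

namespace Pool.Agent.Helper47.TN.NDEG

open Pool.Agent.Helper92.TN

noncomputable section

theorem integ (hI : INTP) (hN : NPI) {R A : Type} [CommRing R] [Field A] (f : R →+* A)
    {ι Θ : Type} [Fintype ι] [Fintype Θ] (lc : ι → A) (ρ : ι → Θ → A) (n : ι → ℕ)
    (P : MvPolynomial ι R)
    (h1 : ∀ i l, ∃ r, f r =
      (Polynomial.C (lc i) * ∏ θ, (Polynomial.X - Polynomial.C (ρ i θ))).coeff l)
    (h2 : ∀ i, degreeOf i P ≤ n i) :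
    f.IsIntegralElem ((∏ i, lc i ^ n i) * ∏ θ, eval₂ f (fun i => ρ i θ) P) := by
  let _ : Algebra R A := f.toAlgebra
  have h := hN R A ι Θ lc ρ n P (fun i S => hI R A Θ (lc i) (ρ i) (fun l => by
    obtain ⟨r, hr⟩ := h1 i l
    rw [← hr]
    exact isIntegral_algebraMap (R := R) (A := A) (x := r)) S) h2
  exact h

theorem closed {k E : Type} [Field k] [Field E] (f : Polynomial k →+* E)
    (hf : Function.Injective f) (e : E) (p q : Polynomial k)
    (he : e = f p / f q) (hi : f.IsIntegralElem e) : ∃ A, f A = e := by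
  let _ : Algebra (Polynomial k) E := f.toAlgebra
  let φ : FractionRing (Polynomial k) →ₐ[Polynomial k] E :=
    { (IsFractionRing.lift (K := FractionRing (Polynomial k)) hf :
        FractionRing (Polynomial k) →+* E) with
      commutes' := fun r => IsFractionRing.lift_algebraMap hf r }
  have hφ : ∀ r, φ (algebraMap _ _ r) = f r := fun r => IsFractionRing.lift_algebraMap hf r
  have hz : φ (algebraMap _ _ p / algebraMap _ _ q) = e := by
    rw [map_div₀, hφ, hφ, he]
  have hi' : IsIntegral (Polynomial k)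
      ((algebraMap (Polynomial k) (FractionRing (Polynomial k)) p) / algebraMap _ _ q) := by
    rw [← isIntegral_algHom_iff φ φ.toRingHom.injective, hz]
    exact hi
  obtain ⟨A, hA⟩ := IsIntegrallyClosed.algebraMap_eq_of_integral hi'
  exact ⟨A, by rw [← hφ, hA, hz]⟩

theorem refl' {k E : Type} [Field k] [Field E] (c : k →+* E) (x : E) (hx : x ≠ 0) (N : ℕ)
    (p : Polynomial k) (hp : p.natDegree ≤ N) :
    Polynomial.eval₂ c x⁻¹ (Polynomial.reflect N p) * x ^ N = Polynomial.eval₂ c x p := by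
  let _ : Invertible x := invertibleOfNonzero hx
  have h := Polynomial.eval₂_reflect_mul_pow c x N p hp
  rwa [invOf_eq_inv] at h

/-- comparison of degrees at infinity -/
theorem degB {k E : Type} [Field k] [Field E] (c : k →+* E) (w : E) (hw : w ≠ 0)
    (hinj : Function.Injective (Polynomial.eval₂RingHom c w)) (D : ℕ) (A : Polynomial k)
    (hi : (Polynomial.eval₂RingHom c w⁻¹).IsIntegralElem
      (w⁻¹ ^ D * Polynomial.eval₂ c w A)) : A.natDegree ≤ D := by
  have hinj' : Function.Injective (Polynomial.eval₂RingHom c w⁻¹) := by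
    rw [injective_iff_map_eq_zero]
    intro p hp
    have h := refl' c w⁻¹ (inv_ne_zero hw) p.natDegree p le_rfl
    rw [inv_inv] at h
    have hp' : Polynomial.eval₂ c w⁻¹ p = 0 := hp
    rw [hp'] at h
    have h2 : Polynomial.eval₂ c w (Polynomial.reflect p.natDegree p) = 0 := by
      rcases mul_eq_zero.1 h with h | h
      · exact h
      · exact absurd h (pow_ne_zero _ (inv_ne_zero hw))
    have h3 : Polynomial.reflect p.natDegree p = 0 :=
      (injective_iff_map_eq_zero _).1 hinj _ h2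
    exact (Polynomial.reflect_eq_zero_iff).1 h3
  obtain ⟨B, hB⟩ := closed (Polynomial.eval₂RingHom c w⁻¹) hinj'
    (w⁻¹ ^ D * Polynomial.eval₂ c w A) (Polynomial.X ^ D * Polynomial.reflect A.natDegree A)
    (Polynomial.X ^ A.natDegree) (by
      have h := refl' c w hw A.natDegree A le_rfl
      simp only [Polynomial.coe_eval₂RingHom, Polynomial.eval₂_mul, Polynomial.eval₂_X_pow]
      rw [eq_div_iff (pow_ne_zero _ (inv_ne_zero hw)), ← h]
      have hw1 : w ^ A.natDegree * w⁻¹ ^ A.natDegree = 1 := by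
        rw [← mul_pow, mul_inv_cancel₀ hw, one_pow]
      linear_combination (w⁻¹ ^ D * Polynomial.eval₂ c w⁻¹ (Polynomial.reflect A.natDegree A)) * hw1)
    hi
  have hB' : Polynomial.eval₂ c w⁻¹ B = w⁻¹ ^ D * Polynomial.eval₂ c w A := hB
  have h1 := refl' c w⁻¹ (inv_ne_zero hw) B.natDegree B le_rfl
  rw [inv_inv, hB'] at h1
  have h2 : Polynomial.X ^ D * Polynomial.reflect B.natDegree B = Polynomial.X ^ B.natDegree * A := by
    apply hinj
    simp only [Polynomial.coe_eval₂RingHom, Polynomial.eval₂_mul, Polynomial.eval₂_X_pow]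
    have e1 : w ^ B.natDegree * w⁻¹ ^ B.natDegree = 1 := by
      rw [← mul_pow, mul_inv_cancel₀ hw, one_pow]
    have e2 : w ^ D * w⁻¹ ^ D = 1 := by
      rw [← mul_pow, mul_inv_cancel₀ hw, one_pow]
    linear_combination (w ^ D * w ^ B.natDegree) * h1 -
      (w ^ D * Polynomial.eval₂ c w (Polynomial.reflect B.natDegree B)) * e1 +
      (w ^ B.natDegree * Polynomial.eval₂ c w A) * e2
  by_cases hA : A = 0
  · rw [hA]; simp
  have h3 := congrArg Polynomial.natDegree h2
  rw [Polynomial.natDegree_mul (pow_ne_zero _ Polynomial.X_ne_zero) hA,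
    Polynomial.natDegree_X_pow] at h3
  have h4 : (Polynomial.X ^ D * Polynomial.reflect B.natDegree B).natDegree ≤ D + B.natDegree := by
    refine (Polynomial.natDegree_mul_le).trans ?_
    rw [Polynomial.natDegree_X_pow]
    refine Nat.add_le_add_left ?_ _
    refine (Polynomial.natDegree_reflect_le).trans ?_
    simp
  omega

theorem degreeOf_map' {R S ι : Type} [CommRing R] [CommRing S] (f : R →+* S) (i : ι)
    (P : MvPolynomial ι R) : degreeOf i (map f P) ≤ degreeOf i P := by
  classical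
  rw [degreeOf_eq_sup, degreeOf_eq_sup]
  exact Finset.sup_mono (support_map_subset f P)

section core

variable {k F E : Type} [Field k] [CharZero k] [Field F] [Algebra k F]
  (K1 : IntermediateField k F) [FiniteDimensional K1 F] [Field E] [IsAlgClosed E] [Algebra K1 E]

theorem prodform {ι : Type} [Fintype ι] (v0 : K1) (ev : Polynomial k →+* E)
    (hev : ∀ p : Polynomial k, ev p = algebraMap K1 E (Polynomial.aeval v0 p))
    (x : ι → F) (lc : ι → Polynomial k) (n : ι → ℕ) (Q : MvPolynomial ι (Polynomial k)) :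
    algebraMap K1 E (Algebra.norm K1
        (eval₂ (Polynomial.aeval (v0 : F) : Polynomial k →ₐ[k] F).toRingHom x Q) *
        ∏ i, Polynomial.aeval v0 (lc i) ^ n i)
      = (∏ i, ev (lc i) ^ n i) * ∏ θ : F →ₐ[K1] E, eval₂ ev (fun i => θ (x i)) Q := by
  have hθv : ∀ (θ : F →ₐ[K1] E) (p : Polynomial k), θ (Polynomial.aeval (v0 : F) p) = ev p := by
    intro θ p
    have h1 : Polynomial.aeval (v0 : F) p = algebraMap K1 F (Polynomial.aeval v0 p) :=
      Polynomial.aeval_algebraMap_apply F v0 p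
    rw [hev, h1]
    exact θ.commutes _
  have hσ : ∀ θ : F →ₐ[K1] E,
      θ (eval₂ (Polynomial.aeval (v0 : F) : Polynomial k →ₐ[k] F).toRingHom x Q) =
        eval₂ ev (fun i => θ (x i)) Q := by
    intro θ
    have h := eval₂_comp_left (θ : F →+* E)
      (Polynomial.aeval (v0 : F) : Polynomial k →ₐ[k] F).toRingHom x Q
    have h2 : (θ : F →+* E).comp (Polynomial.aeval (v0 : F) : Polynomial k →ₐ[k] F).toRingHom = ev :=
      RingHom.ext fun p => hθv θ p
    rw [h2] at h
    exact h
  rw [map_mul, Algebra.norm_eq_prod_embeddings K1 E, map_prod, mul_comm]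
  congr 1
  · refine Finset.prod_congr rfl fun i _ => ?_
    rw [map_pow, hev]
  · exact Finset.prod_congr rfl fun θ _ => hσ θ

theorem core (hI : INTP) (hN : NPI) {ι : Type} [Fintype ι] (v0 : K1) (ev : Polynomial k →+* E)
    (hev : ∀ p : Polynomial k, ev p = algebraMap K1 E (Polynomial.aeval v0 p))
    (hinj : Function.Injective ev)
    (hgen : ∀ z : K1, ∃ p q : Polynomial k, z = Polynomial.aeval v0 p / Polynomial.aeval v0 q)
    (x : ι → F) (μ : ι → Polynomial (Polynomial k))
    (hco : ∀ i l, ev ((μ i).coeff l) = (Polynomial.C (ev (μ i).leadingCoeff) *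
      ∏ θ : F →ₐ[K1] E, (Polynomial.X - Polynomial.C (θ (x i)))).coeff l)
    (n : ι → ℕ) (Q : MvPolynomial ι (Polynomial k)) (hQ : ∀ i, degreeOf i Q ≤ n i) :
    ∃ A : Polynomial k, ev A = algebraMap K1 E (Algebra.norm K1
        (eval₂ (Polynomial.aeval (v0 : F) : Polynomial k →ₐ[k] F).toRingHom x Q) *
        ∏ i, Polynomial.aeval v0 ((μ i).leadingCoeff) ^ n i) := by
  have hp := prodform K1 v0 ev hev x (fun i => (μ i).leadingCoeff) n Q
  have hint := integ hI hN ev (fun i => ev ((μ i).leadingCoeff))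
    (fun i (θ : F →ₐ[K1] E) => θ (x i)) n Q (fun i l => ⟨(μ i).coeff l, hco i l⟩) hQ
  rw [← hp] at hint
  obtain ⟨p, q, hpq⟩ := hgen (Algebra.norm K1
        (eval₂ (Polynomial.aeval (v0 : F) : Polynomial k →ₐ[k] F).toRingHom x Q) *
        ∏ i, Polynomial.aeval v0 ((μ i).leadingCoeff) ^ n i)
  refine closed ev hinj _ p q ?_ hint
  rw [hev, hev, ← map_div₀, ← hpq]

end core

theorem coreDeg (hI : INTP) (hN : NPI) {k E : Type} [Field k] [Field E] {ι Θ : Type}
    [Fintype ι] [Fintype Θ] (c : k →+* E) (w : E) (hw : w ≠ 0)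
    (hinj : Function.Injective (Polynomial.eval₂RingHom c w))
    (ρ : ι → Θ → E) (μ : ι → Polynomial (Polynomial k))
    (hco : ∀ i l, Polynomial.eval₂ c w ((μ i).coeff l) =
      (Polynomial.C (Polynomial.eval₂ c w (μ i).leadingCoeff) *
      ∏ θ, (Polynomial.X - Polynomial.C (ρ i θ))).coeff l)
    (D : ι → ℕ) (hD : ∀ i l, ((μ i).coeff l).natDegree ≤ D i)
    (n : ι → ℕ) (P : MvPolynomial ι k) (hP : ∀ i, degreeOf i P ≤ n i) (A : Polynomial k)
    (hA : Polynomial.eval₂ c w A = (∏ i, Polynomial.eval₂ c w ((μ i).leadingCoeff) ^ n i) *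
      ∏ θ, eval₂ (Polynomial.eval₂RingHom c w) (fun i => ρ i θ) (map Polynomial.C P)) :
    A.natDegree ≤ ∑ i, n i * D i := by
  have hcomp : ∀ z : E, (Polynomial.eval₂RingHom c z).comp (Polynomial.C : k →+* Polynomial k) = c := by
    intro z
    ext r
    simp
  have hr : ∀ i l, Polynomial.eval₂ c w⁻¹ (Polynomial.reflect (D i) ((μ i).coeff l)) =
      w⁻¹ ^ D i * Polynomial.eval₂ c w ((μ i).coeff l) := by
    intro i l
    rw [← refl' c w hw (D i) _ (hD i l)]
    have e1 : w ^ D i * w⁻¹ ^ D i = 1 := by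
      rw [← mul_pow, mul_inv_cancel₀ hw, one_pow]
    linear_combination (-Polynomial.eval₂ c w⁻¹ (Polynomial.reflect (D i) ((μ i).coeff l))) * e1
  refine degB c w hw hinj _ A ?_
  have h := integ hI hN (Polynomial.eval₂RingHom c w⁻¹)
    (fun i => w⁻¹ ^ D i * Polynomial.eval₂ c w (μ i).leadingCoeff) ρ n (map Polynomial.C P)
    (fun i l => ⟨Polynomial.reflect (D i) ((μ i).coeff l), by
      rw [Polynomial.coe_eval₂RingHom, hr, hco, Polynomial.C_mul, mul_assoc,
        Polynomial.coeff_C_mul, Polynomial.coeff_C_mul, Polynomial.coeff_C_mul]⟩)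
    (fun i => (degreeOf_map' _ i P).trans (hP i))
  have e : w⁻¹ ^ (∑ i, n i * D i) * Polynomial.eval₂ c w A =
      (∏ i, (w⁻¹ ^ D i * Polynomial.eval₂ c w (μ i).leadingCoeff) ^ n i) *
        ∏ θ, eval₂ (Polynomial.eval₂RingHom c w⁻¹) (fun i => ρ i θ) (map Polynomial.C P) := by
    rw [hA, ← mul_assoc]
    congr 1
    · rw [← Finset.prod_pow_eq_pow_sum, ← Finset.prod_mul_distrib]
      refine Finset.prod_congr rfl fun i _ => ?_
      rw [mul_pow, ← pow_mul, mul_comm (n i) (D i)]
    · refine Finset.prod_congr rfl fun θ _ => ?_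
      rw [eval₂_map, eval₂_map, hcomp, hcomp]
  rw [e]
  exact h

theorem main (hI : INTP) (hN : NPI) {k F E : Type} [Field k] [CharZero k] [Field F] [Algebra k F]
    (K1 : IntermediateField k F) [FiniteDimensional K1 F] [Field E] [IsAlgClosed E] [Algebra K1 E]
    {ι : Type} [Fintype ι] (v0 : K1) (hv : Transcendental k (v0 : F)) (ev : Polynomial k →+* E)
    (hev : ∀ p : Polynomial k, ev p = algebraMap K1 E (Polynomial.aeval v0 p))
    (hgen : ∀ z : K1, ∃ p q : Polynomial k,
      (z : F) = Polynomial.aeval (v0 : F) p / Polynomial.aeval (v0 : F) q)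
    (x : ι → F) (μ : ι → Polynomial (Polynomial k)) (hμ0 : ∀ i, μ i ≠ 0) (D : ι → ℕ)
    (hD : ∀ i l, ((μ i).coeff l).natDegree ≤ D i)
    (hμ : ∀ i, (μ i).map ev = Polynomial.C (ev (μ i).leadingCoeff) *
        ∏ᶠ θ : F →ₐ[K1] E, (Polynomial.X - Polynomial.C (θ (x i)))) :
    ∃ lc : ι → Polynomial k, (∀ i, lc i ≠ 0) ∧
      (∀ (n : ι → ℕ) (P : MvPolynomial ι k), (∀ i, degreeOf i P ≤ n i) → ∃ A : Polynomial k,
        A.natDegree ≤ ∑ i, n i * D i ∧
        (Algebra.norm K1 (aeval x P) : F) *
          ∏ i, Polynomial.aeval (v0 : F) (lc i) ^ n i = Polynomial.aeval (v0 : F) A) ∧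
      ∀ G ∈ Algebra.adjoin k (insert (v0 : F) (Set.range x)), ∃ (n : ι → ℕ) (A : Polynomial k),
        (Algebra.norm K1 G : F) *
          ∏ i, Polynomial.aeval (v0 : F) (lc i) ^ n i = Polynomial.aeval (v0 : F) A := by
  classical
  have hKE : Function.Injective (algebraMap K1 E) := (algebraMap K1 E).injective
  have hcoe : ∀ p : Polynomial k,
      ((Polynomial.aeval v0 p : K1) : F) = Polynomial.aeval (v0 : F) p := fun p =>
    (Polynomial.aeval_algebraMap_apply F v0 p).symm
  have hinj : Function.Injective ev := by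
    rw [injective_iff_map_eq_zero]
    intro p hp
    rw [hev] at hp
    have h1 : (Polynomial.aeval v0 p : K1) = 0 := hKE (by rw [hp, map_zero])
    have h2 : Polynomial.aeval (v0 : F) p = 0 := by rw [← hcoe, h1]; rfl
    exact (transcendental_iff.1 hv) p h2
  have hco : ∀ i l, ev ((μ i).coeff l) = (Polynomial.C (ev (μ i).leadingCoeff) *
      ∏ θ : F →ₐ[K1] E, (Polynomial.X - Polynomial.C (θ (x i)))).coeff l := by
    intro i l
    rw [← Polynomial.coeff_map, hμ i, finprod_eq_prod_of_fintype]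
  have hgen' : ∀ z : K1, ∃ p q : Polynomial k,
      z = Polynomial.aeval v0 p / Polynomial.aeval v0 q := by
    intro z
    obtain ⟨p, q, h⟩ := hgen z
    refine ⟨p, q, Subtype.val_injective ?_⟩
    rw [h, ← hcoe, ← hcoe]
    rfl
  have fin : ∀ (n : ι → ℕ) (y : F) (A : Polynomial k),
      ev A = algebraMap K1 E
        (Algebra.norm K1 y * ∏ i, Polynomial.aeval v0 ((μ i).leadingCoeff) ^ n i) →
      (Algebra.norm K1 y : F) * ∏ i, Polynomial.aeval (v0 : F) ((μ i).leadingCoeff) ^ n i =
        Polynomial.aeval (v0 : F) A := by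
    intro n y A h
    rw [hev] at h
    have h2 := congrArg (algebraMap K1 F) (hKE h)
    rw [map_mul, map_prod] at h2
    simp only [map_pow] at h2
    have hcoe' : ∀ p : Polynomial k, algebraMap K1 F (Polynomial.aeval v0 p) =
      Polynomial.aeval (v0 : F) p := hcoe
    simp only [hcoe'] at h2
    exact h2.symm
  refine ⟨fun i => (μ i).leadingCoeff, fun i => Polynomial.leadingCoeff_ne_zero.2 (hμ0 i), ?_, ?_⟩
  · intro n P hP
    obtain ⟨A, hA⟩ := core K1 hI hN v0 ev hev hinj hgen' x μ hco n (map Polynomial.C P)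
      (fun i => (degreeOf_map' _ i P).trans (hP i))
    have hP' : eval₂ (Polynomial.aeval (v0 : F) : Polynomial k →ₐ[k] F).toRingHom x
        (map Polynomial.C P) = aeval x P := by
      rw [eval₂_map, aeval_def]
      congr 1
      ext r
      simp
    refine ⟨A, ?_, fin n _ A (by rw [hA, hP'])⟩
    have hp := prodform K1 v0 ev hev x (fun i => (μ i).leadingCoeff) n (map Polynomial.C P)
    rw [← hA] at hp
    have hv00 : (v0 : F) ≠ 0 := by
      intro h
      rw [h] at hv
      exact hv isAlgebraic_zero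
    have hw : algebraMap K1 E v0 ≠ 0 := by
      intro h
      have : v0 = 0 := hKE (by rw [map_zero]; exact h)
      exact hv00 (congrArg Subtype.val this)
    have hee : ev = Polynomial.eval₂RingHom ((algebraMap K1 E).comp (algebraMap k K1))
        (algebraMap K1 E v0) := by
      refine RingHom.ext fun p => ?_
      rw [hev, Polynomial.coe_eval₂RingHom, Polynomial.aeval_def, Polynomial.hom_eval₂]
    subst hee
    exact coreDeg hI hN ((algebraMap K1 E).comp (algebraMap k K1)) (algebraMap K1 E v0) hw hinj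
      (fun i (θ : F →ₐ[K1] E) => θ (x i)) μ hco D hD n P hP A hp
  · intro G hG
    have hG' : ∃ Q, eval₂ (Polynomial.aeval (v0 : F) : Polynomial k →ₐ[k] F).toRingHom x Q = G := by
      induction hG using Algebra.adjoin_induction with
      | mem y hy =>
        rcases hy with rfl | ⟨i, rfl⟩
        · exact ⟨C Polynomial.X, by simp⟩
        · exact ⟨X i, by simp⟩
      | algebraMap r => exact ⟨C (Polynomial.C r), by simp⟩
      | add y z _ _ hy hz =>
        obtain ⟨Q, rfl⟩ := hy
        obtain ⟨Q', rfl⟩ := hz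
        exact ⟨Q + Q', by rw [eval₂_add]⟩
      | mul y z _ _ hy hz =>
        obtain ⟨Q, rfl⟩ := hy
        obtain ⟨Q', rfl⟩ := hz
        exact ⟨Q * Q', by rw [eval₂_mul]⟩
    obtain ⟨Q, rfl⟩ := hG'
    obtain ⟨A, hA⟩ := core K1 hI hN v0 ev hev hinj hgen' x μ hco (fun i => degreeOf i Q) Q
      (fun i => le_rfl)
    exact ⟨fun i => degreeOf i Q, A, fin _ _ _ hA⟩

theorem t (hI : INTP) (hN : NPI) (hS : SYMF) : NDEG := by
  intro k F _ _ _ _ v hv hfd ι _ x
  have hev : ∀ p : Polynomial k,
      ((algebraMap (IntermediateField.adjoin k {v}) (AlgebraicClosure F)).comp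
        (Polynomial.aeval (⟨v, IntermediateField.mem_adjoin_simple_self k v⟩ :
          IntermediateField.adjoin k {v}) :
          Polynomial k →ₐ[k] IntermediateField.adjoin k {v}).toRingHom) p =
      algebraMap (IntermediateField.adjoin k {v}) (AlgebraicClosure F) (Polynomial.aeval
        (⟨v, IntermediateField.mem_adjoin_simple_self k v⟩ : IntermediateField.adjoin k {v}) p) :=
    fun p => rfl
  choose μ hμ0 hμd hμ using fun i => hS k F v hv hfd (x i) (AlgebraicClosure F) _ hev
  exact main hI hN (IntermediateField.adjoin k {v})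
    (⟨v, IntermediateField.mem_adjoin_simple_self k v⟩ : IntermediateField.adjoin k {v}) hv _ hev
    (fun z => (IntermediateField.mem_adjoin_simple_iff k (z : F)).1 z.2) x μ hμ0 _ hμd hμ

end

end Pool.Agent.Helper47.TN.NDEG
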